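import Pool.Agent.Run7.h777.Main

/-!
# MP_c462d2_lc: controlled wild algebras have undecidable theories of modules

`k` is any field, `R` a finite-dimensional `k`-algebra. An algebra homomorphism
`ρ : R → Matₙ(k⟨x, y⟩)` is the same thing as a bimodule which is free of rank `n` over `k⟨x, y⟩`;
it gives the functor `X ↦ Xⁿ` from modules over `k⟨x, y⟩` to `R`-modules (`Fob ρ`, `Fmap ρ`).

The functor is *controlled* (`Controlled ρ`) when, for finite-dimensional `X`, `Y`, every
`R`-homomorphism `Xⁿ → Yⁿ` is in exactly one way the image of a homomorphism `X → Y` plus an
element of `N X Y`, for some family `N` closed under addition and under composition with all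
`R`-homomorphisms between modules in the image. For `N = 0` these are the strictly wild algebras;
for `N X Y` the maps which factor through a module in some class closed under finite direct sums,
they are the controlled wild algebras of Ringel, which are conjectured to be all wild algebras.

Theorem. If the functor is controlled, then the first-order theory of `R`-modules is undecidable:
for every numbering `e` of `R` the set of the numbers of the sentences true in all `R`-modules is
not recursive.
-/

set_option autoImplicit false

namespace Pool.Agent.Results.MP_c462d2_lc.ControlledWild

open Run7.h777

theorem result (k R : Type) [Field k] [Ring R] [Algebra k R] [Module.Finite k R] (n : ℕ)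
    (ρ : R →ₐ[k] Matrix (Fin n) (Fin n) (FreeAlgebra k (Fin 2))) (hρ : Controlled ρ)
    (e : R → ℕ) (he : Function.Injective e) : ¬ TheoryDecidable R e :=
  not_decidable ρ hρ e he

end Pool.Agent.Results.MP_c462d2_lc.ControlledWild
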